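import Mathlib
import Pool.Agent.Run7.h533.AC.Sgn3

set_option autoImplicit false

/-!
# MP_eba1ef_gt: all convex bodies at a bounded distance from the Euclidean ball

No symmetry of `K` is assumed.

**Bodies at a bounded distance from the ball.** Let `K` be a convex body in `ℝ^d` which contains a
ball of radius `r` and is contained in a ball of radius `D r` (the centres may differ). Then
`c(K) ≤ q^d` for `d ≥ d₀`, where `q < 2` and `d₀` depend only on `D`; and `c(K) < 2^d` as soon as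
`D ≤ a √(log₂ d)`, for every fixed `a < 1/2` and `d ≥ d₀(a)`.

**Bounded asymmetry and no almost isometric `ℓ₁ⁿ`.** More generally let `C` be a symmetric convex
body such that every `n` points of `C` have a signed sum in `(1-δ) n C`, and let
`o + C ⊆ K ⊆ p + D C`. Then `c(K) ≤ q^d` for `d ≥ d₀`, `q < 2`, with `q, d₀` depending on `n, δ, D`
only. (For `K = C` this is, up to the constants, the starting result `NoAlmostEllOne`.)

**Criteria for one body.** Let `o` be an interior point of `K`. (a) If for all points `x_i, y_i`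
(`i < N`) of `K` some signed sum `∑ ±(x_i - y_i)` is in `θ N (K - o)`, then
`c(K) ≤ 104 N² 2^N d log(d+1) 2^d exp(-(1-θ) d/(N 2^N))`. (b) The same holds with
`104 k² (k+1) d log(d+1) 2^d exp(-(1-θ) ε d/(k 2^k))` if `K` contains no approximate simplex of
order `k+1`: points `x_0, ..., x_k` of `K` and affine functions `ψ_j ≥ 0` on `K` with
`ψ_j(x_j) = 1`, `ψ_j(x_i) ≤ ε` for `i ≠ j`, and `θ ψ_j(o) ≤ 1`.

**The structure of counterexamples.** So if a convex body `K` in `ℝ^d` is not covered by fewer than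
`2^d` translates of its interior, then with respect to each interior point `o` it contains
approximate simplices of the order `α log₂ d` with the error `ε = d^(-β)` (for `α + β < 1` and
`d ≥ d₀(α, β, θ)`), as simplices and cubes do, and `N ≥ α log₂ d` pairs of points no signed sum of
whose differences is in `θ N (K - o)`.

All bounds hold for `K + B` as well, for every nonempty compact convex set `B`.

**Proof.** Let `A` be a finite set of points of `K` such that no translate of `l K`, `l` close to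
`1`, contains more than the share `q` of `A`. Then the sum `w = x_1/2 + x_2/4 + ... + x_N/2^N +
z/2^N` of random points `x_i` of `A` (and a random point `z` of `l K`) has a density bounded by
`(C 2^d q)^N` up to the probability `N/C` (as in `CapsOfSmallVolume`). So for fixed points `y_i` it
is rarely in the translate `T = (1 - (1-θ) τ) K + τ y - θ τ o`, `y = (y_1 + ... + y_N)/N`,
`τ = 2^(-N)`, of a smaller copy of `K`, if `q` is so small as to contradict the assertion. Choose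
also the `y_i` at random in `A`. The pairs `(x_i, y_i)` may be exchanged, so for some choice of the
`2N` points of `A` this holds for all `2^N` exchanges: for each of them there is a functional `φ`,
`φ ≤ h` on `K`, with `h - φ(w) < τ (h - φ(y)) - θ τ (h - φ(o))`, so that
`h - φ(x_i) < (h - φ(y)) - θ (h - φ(o))` for all `i`, and `φ(∑ (x_i - y_i)) > θ N (h - φ(o))`. No
law of large numbers is needed. For (b) one uses one point `y` only and the `k+1` ways to choose it.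
Small signed sums exist by the parallelogram law in the Euclidean case, and by an iteration in
blocks of `n` vectors in the other case.
-/

namespace Pool.Agent.Results.MP_eba1ef_gt.BoundedDistanceToBall

open Metric Filter Topology
open scoped Pointwise
open Pool.Agent.Run7.h533.AC (sg simplexBound signBound)

/-- A convex body in `ℝ^d`. -/
def Body {d : ℕ} (K : Set (EuclideanSpace ℝ (Fin d))) : Prop :=
  Convex ℝ K ∧ IsCompact K ∧ (interior K).Nonempty

/-- For every nonempty compact convex set `B` (for example for a point) the sum `K + B` is a convex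
body which is covered by at most `N` translates of its interior. -/
def SumsCovered {d : ℕ} (N : ℝ) (K : Set (EuclideanSpace ℝ (Fin d))) : Prop :=
  ∀ B : Set (EuclideanSpace ℝ (Fin d)), Convex ℝ B → IsCompact B → B.Nonempty →
    Body (K + B) ∧ ∃ T : Finset (EuclideanSpace ℝ (Fin d)), (T.card : ℝ) ≤ N ∧
      K + B ⊆ ⋃ t ∈ T, (fun x => t + x) '' interior (K + B)

/-- `K` is covered by fewer than `2^d` translates of its interior. -/
def FewTranslates {d : ℕ} (K : Set (EuclideanSpace ℝ (Fin d))) : Prop :=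
  ∃ T : Finset (EuclideanSpace ℝ (Fin d)), T.card < 2 ^ d ∧
    K ⊆ ⋃ t ∈ T, (fun x => t + x) '' interior K

/-- For every nonempty compact convex set `B` the sum `K + B` is a convex body which is covered by
fewer than `2^d` translates of its interior. -/
def SumsFewTranslates {d : ℕ} (K : Set (EuclideanSpace ℝ (Fin d))) : Prop :=
  ∀ B : Set (EuclideanSpace ℝ (Fin d)), Convex ℝ B → IsCompact B → B.Nonempty →
    Body (K + B) ∧ FewTranslates (K + B)

/-- For all points `x_i, y_i` of `K` (`i < N`) some signed sum of the differences `x_i - y_i` is in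
`θ N (K - o)`. -/
def SmallSignedSums {d : ℕ} (N : ℕ) (θ : ℝ) (o : EuclideanSpace ℝ (Fin d))
    (K : Set (EuclideanSpace ℝ (Fin d))) : Prop :=
  ∀ x y : Fin N → EuclideanSpace ℝ (Fin d), (∀ i, x i ∈ K) → (∀ i, y i ∈ K) →
    ∃ s : Fin N → ℝ, (∀ i, s i = 1 ∨ s i = -1) ∧
      ∃ v ∈ K, ∑ i, s i • (x i - y i) = (θ * N) • (v - o)

/-- There are `n` points `x_j` of `K` and affine functions `ψ_j = h_j - φ_j` which are nonnegative
on `K`, with `ψ_j(x_j) = 1`, `ψ_j(x_i) ≤ ε` for `i ≠ j`, and `θ ψ_j(o) ≤ 1`. -/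
def ApproxSimplex {d : ℕ} (n : ℕ) (ε θ : ℝ) (o : EuclideanSpace ℝ (Fin d))
    (K : Set (EuclideanSpace ℝ (Fin d))) : Prop :=
  ∃ x : Fin n → EuclideanSpace ℝ (Fin d), (∀ j, x j ∈ K) ∧
    ∀ j, ∃ (φ : EuclideanSpace ℝ (Fin d) →L[ℝ] ℝ) (h : ℝ), (∀ y ∈ K, 0 ≤ h - φ y) ∧
      h - φ (x j) = 1 ∧ (∀ i, i ≠ j → h - φ (x i) ≤ ε) ∧ θ * (h - φ o) ≤ 1

/-- `C` is a centrally symmetric convex body, and every `n` points of `C` have a signed sum in
`(1-δ) n C`. -/
def NoEllOne {d : ℕ} (n : ℕ) (δ : ℝ) (C : Set (EuclideanSpace ℝ (Fin d))) : Prop :=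
  Body C ∧ (∀ x ∈ C, -x ∈ C) ∧
    ∀ x : Fin n → EuclideanSpace ℝ (Fin d), (∀ i, x i ∈ C) →
      ∃ s : Fin n → ℝ, (∀ i, s i = 1 ∨ s i = -1) ∧ ∑ i, s i • x i ∈ ((1 - δ) * n) • C

theorem body_add {d : ℕ} {K B : Set (EuclideanSpace ℝ (Fin d))} (hK : Body K) (hB : Convex ℝ B)
    (hBc : IsCompact B) (hBn : B.Nonempty) : Body (K + B) := by
  refine ⟨hK.1.add hB, hK.2.1.add hBc, ?_⟩
  obtain ⟨a, ha⟩ := hK.2.2
  obtain ⟨b, hb⟩ := hBn
  have hopen : IsOpen (interior K + B) := isOpen_interior.add_right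
  exact ⟨a + b, interior_maximal (Set.add_subset_add_right interior_subset) hopen
    (Set.add_mem_add ha hb)⟩

theorem sums {d : ℕ} {K : Set (EuclideanSpace ℝ (Fin d))} {N : ℝ} (hK : Body K)
    (h : ∀ B : Set (EuclideanSpace ℝ (Fin d)), ∃ T : Finset (EuclideanSpace ℝ (Fin d)),
      K + B ⊆ ⋃ t ∈ T, (fun x => t + x) '' interior (K + B) ∧ (T.card : ℝ) ≤ N) :
    SumsCovered N K := by
  intro B hB hBc hBn
  obtain ⟨T, hT, hTc⟩ := h B
  exact ⟨body_add hK hB hBc hBn, T, hTc, hT⟩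

theorem sums_mono {d : ℕ} {K : Set (EuclideanSpace ℝ (Fin d))} {N M : ℝ}
    (h : SumsCovered N K) (hNM : N ≤ M) : SumsCovered M K := by
  intro B hB hBc hBn
  obtain ⟨h1, T, h2, h3⟩ := h B hB hBc hBn
  exact ⟨h1, T, h2.trans hNM, h3⟩

theorem sums_few {d : ℕ} {K : Set (EuclideanSpace ℝ (Fin d))} {N : ℝ}
    (h : SumsCovered N K) (hN : N < 2 ^ d) : SumsFewTranslates K := by
  intro B hB hBc hBn
  obtain ⟨h1, T, h2, h3⟩ := h B hB hBc hBn
  refine ⟨h1, T, ?_, h3⟩
  have : (T.card : ℝ) < 2 ^ d := lt_of_le_of_lt h2 hN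
  exact_mod_cast this

/-- from a point `B` to the body itself -/
theorem few_of_sums {d : ℕ} {K : Set (EuclideanSpace ℝ (Fin d))}
    (h : SumsFewTranslates K) : FewTranslates K := by
  obtain ⟨-, h2⟩ := h {0} (convex_singleton 0) isCompact_singleton (Set.singleton_nonempty 0)
  rwa [Set.singleton_zero, add_zero] at h2

theorem signs {d : ℕ} (hd : 1 ≤ d) {K : Set (EuclideanSpace ℝ (Fin d))} (hK : Body K)
    {o : EuclideanSpace ℝ (Fin d)} (ho : o ∈ interior K) {N : ℕ} (hN : 1 ≤ N) {θ : ℝ}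
    (hθ : 0 ≤ θ) (h : SmallSignedSums N θ o K) : SumsCovered (signBound d N θ) K := by
  refine sums hK (Pool.Agent.Run7.h533.AC.sign_all hd hK.1 hK.2.1 ho hN hθ ?_)
  intro x y hx hy
  obtain ⟨s, hs, v, hv, hsv⟩ := h x y hx hy
  obtain ⟨b, hb⟩ := Pool.Agent.Run7.h533.AC.bool_of_sign s hs
  refine ⟨b, v, hv, ?_⟩
  simp only [hb]
  exact hsv

theorem sg_sign (b : Bool) : sg b = 1 ∨ sg b = -1 := by
  cases b
  · exact Or.inr rfl
  · exact Or.inl rfl

theorem simplices {d : ℕ} (hd : 1 ≤ d) {K : Set (EuclideanSpace ℝ (Fin d))} (hK : Body K)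
    {o : EuclideanSpace ℝ (Fin d)} (ho : o ∈ interior K) {k : ℕ} (hk : 1 ≤ k) {ε θ : ℝ}
    (hε0 : 0 < ε) (hε1 : ε ≤ 1) (hθ : 0 ≤ θ) (h : ¬ ApproxSimplex (k + 1) ε θ o K) :
    SumsCovered (simplexBound d k (ε * (1 - θ))) K :=
  sums hK (Pool.Agent.Run7.h533.AC.simplex_all hd hK.1 hK.2.1 ho hk hε0 hε1 hθ h)

theorem signBound_lt {d k : ℕ} {θ : ℝ}
    (h : 104 * (k : ℝ) ^ 2 * (k + 1) * 2 ^ k * d * Real.log (d + 1)
        * Real.exp (-((1 - θ) * d / (k * 2 ^ k))) < 1) : signBound d k θ < 2 ^ d := by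
  have h0 : 0 ≤ Real.log ((d : ℝ) + 1) := Real.log_nonneg (by
    have : (0 : ℝ) ≤ d := Nat.cast_nonneg d
    linarith)
  have hk : (0 : ℝ) ≤ k := Nat.cast_nonneg k
  unfold signBound
  calc 104 * (k : ℝ) ^ 2 * 2 ^ k * d * Real.log (d + 1) * 2 ^ d
        * Real.exp (-((1 - θ) * d / (k * 2 ^ k)))
      = (104 * (k : ℝ) ^ 2 * 1 * 2 ^ k * d * Real.log (d + 1)
        * Real.exp (-((1 - θ) * d / (k * 2 ^ k)))) * 2 ^ d := by ring
    _ ≤ (104 * (k : ℝ) ^ 2 * (k + 1) * 2 ^ k * d * Real.log (d + 1)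
        * Real.exp (-((1 - θ) * d / (k * 2 ^ k)))) * 2 ^ d := by
        gcongr
        linarith
    _ < 1 * 2 ^ d := by
        apply mul_lt_mul_of_pos_right h
        positivity
    _ = 2 ^ d := one_mul _

theorem simplexBound_lt {d k : ℕ} {ε : ℝ}
    (h : 104 * (k : ℝ) ^ 2 * (k + 1) * 2 ^ k * d * Real.log (d + 1)
        * Real.exp (-(ε * d / (k * 2 ^ k))) < 1) : simplexBound d k ε < 2 ^ d := by
  have h0 : 0 ≤ Real.log ((d : ℝ) + 1) := Real.log_nonneg (by
    have : (0 : ℝ) ≤ d := Nat.cast_nonneg d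
    linarith)
  have hk : (0 : ℝ) ≤ k := Nat.cast_nonneg k
  unfold simplexBound
  calc 104 * (k : ℝ) ^ 2 * (k + 1) * d * Real.log (d + 1) * 2 ^ d
        * Real.exp (-(ε * d / (k * 2 ^ k)))
      = (104 * (k : ℝ) ^ 2 * (k + 1) * 1 * d * Real.log (d + 1)
        * Real.exp (-(ε * d / (k * 2 ^ k)))) * 2 ^ d := by ring
    _ ≤ (104 * (k : ℝ) ^ 2 * (k + 1) * 2 ^ k * d * Real.log (d + 1)
        * Real.exp (-(ε * d / (k * 2 ^ k)))) * 2 ^ d := by
        gcongr
        exact one_le_pow₀ (by norm_num)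
    _ < 1 * 2 ^ d := by
        apply mul_lt_mul_of_pos_right h
        positivity
    _ = 2 ^ d := one_mul _

theorem signBound_exp {k : ℕ} (hk : 1 ≤ k) {θ : ℝ} (hθ : θ < 1) :
    ∃ q : ℝ, 0 < q ∧ q < 2 ∧ ∃ N : ℕ, ∀ d : ℕ, N ≤ d → signBound d k θ ≤ q ^ d := by
  have hk' : (0 : ℝ) < k := by exact_mod_cast hk
  have h1 : 0 < 1 - θ := by linarith
  obtain ⟨q, hq0, hq2, N, hN⟩ := Pool.Agent.Run7.h533.AC.size_exp
    (C := 104 * (k : ℝ) ^ 2 * 2 ^ k) (c := (1 - θ) / (k * 2 ^ k)) (by positivity) (by positivity)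
  refine ⟨q, hq0, hq2, N, fun d hd => ?_⟩
  refine le_trans (le_of_eq ?_) (hN d hd)
  unfold signBound
  congr 2
  ring

/-- small signed sums for a body between two balls -/
theorem ball_signs {d : ℕ} {K : Set (EuclideanSpace ℝ (Fin d))} {o p : EuclideanSpace ℝ (Fin d)}
    {r D θ : ℝ} (hr : 0 < r) (hθ : 0 < θ) (h1 : closedBall o r ⊆ K)
    (h2 : K ⊆ closedBall p (D * r)) {N : ℕ} (hN : 1 ≤ N) (hND : 4 * D ^ 2 ≤ θ ^ 2 * N) :
    SmallSignedSums N θ o K := by
  intro x y hx hy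
  obtain ⟨b, v, hv, hbv⟩ := Pool.Agent.Run7.h533.AC.signs_ball hr hθ h1 h2 hN (by
    calc 4 * (D * r) ^ 2 = (4 * D ^ 2) * r ^ 2 := by ring
      _ ≤ (θ ^ 2 * N) * r ^ 2 := by gcongr) x y hx hy
  exact ⟨fun i => sg (b i), fun i => sg_sign _, v, hv, hbv⟩

theorem ball_int {d : ℕ} {K : Set (EuclideanSpace ℝ (Fin d))} {o : EuclideanSpace ℝ (Fin d)}
    {r : ℝ} (hr : 0 < r) (h1 : closedBall o r ⊆ K) : o ∈ interior K :=
  mem_interior_iff_mem_nhds.2 (Filter.mem_of_superset (closedBall_mem_nhds o hr) h1)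

/-- **Main theorem.** -/
theorem result :
    -- (1) convex bodies at the distance `D` from the Euclidean ball, `D ≤ a √(log₂ d)`, `a < 1/2`
    (∀ a : ℝ, 0 ≤ a → a < 1 / 2 → ∃ d₀ : ℕ, ∀ d : ℕ, d₀ ≤ d →
      ∀ (K : Set (EuclideanSpace ℝ (Fin d))) (o p : EuclideanSpace ℝ (Fin d)) (r : ℝ),
        Body K → 0 < r → closedBall o r ⊆ K →
        K ⊆ closedBall p (a * Real.sqrt (Real.logb 2 d) * r) → SumsFewTranslates K) ∧
    -- (2) the distance `D` is bounded
    (∀ D : ℝ, ∃ q : ℝ, 0 < q ∧ q < 2 ∧ ∃ d₀ : ℕ, ∀ d : ℕ, d₀ ≤ d →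
      ∀ (K : Set (EuclideanSpace ℝ (Fin d))) (o p : EuclideanSpace ℝ (Fin d)) (r : ℝ),
        Body K → 0 < r → closedBall o r ⊆ K → K ⊆ closedBall p (D * r) →
        SumsCovered (q ^ d) K) ∧
    -- (3) bounded distance from a symmetric body without almost isometric copies of `ℓ₁ⁿ`
    (∀ (n : ℕ) (δ D : ℝ), 1 ≤ n → 0 < δ → δ ≤ 1 → 0 ≤ D →
      ∃ q : ℝ, 0 < q ∧ q < 2 ∧ ∃ d₀ : ℕ, ∀ d : ℕ, d₀ ≤ d →
      ∀ (C K : Set (EuclideanSpace ℝ (Fin d))) (o p : EuclideanSpace ℝ (Fin d)),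
        NoEllOne n δ C → Body K → (∀ u ∈ C, o + u ∈ K) → (∀ x ∈ K, ∃ u ∈ C, x = p + D • u) →
        SumsCovered (q ^ d) K) ∧
    -- (4) criteria for one body
    (∀ (d : ℕ) (K : Set (EuclideanSpace ℝ (Fin d))), 1 ≤ d → Body K → ∀ o ∈ interior K,
      (∀ (N : ℕ) (θ : ℝ), 1 ≤ N → 0 ≤ θ → SmallSignedSums N θ o K →
        SumsCovered (signBound d N θ) K) ∧
      (∀ (k : ℕ) (ε θ : ℝ), 1 ≤ k → 0 < ε → ε ≤ 1 → 0 ≤ θ → ¬ ApproxSimplex (k + 1) ε θ o K →
        SumsCovered (simplexBound d k (ε * (1 - θ))) K)) ∧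
    -- (5) the structure of bodies which need at least `2^d` translates
    (∀ α β θ : ℝ, 0 ≤ α → 0 ≤ β → α + β < 1 → 0 ≤ θ → θ < 1 → ∃ d₀ : ℕ, ∀ d : ℕ, d₀ ≤ d →
      ∀ K : Set (EuclideanSpace ℝ (Fin d)), Body K → ¬ FewTranslates K → ∀ o ∈ interior K,
        (∃ n : ℕ, α * Real.logb 2 d ≤ n ∧ ApproxSimplex n ((d : ℝ) ^ (-β)) θ o K) ∧
        (∃ N : ℕ, α * Real.logb 2 d ≤ N ∧ ¬ SmallSignedSums N θ o K)) := by
  refine ⟨?_, ?_, ?_, ?_, ?_⟩
  · intro a ha0 ha1
    set θ : ℝ := Real.sqrt ((1 + 4 * a ^ 2) / 2) with hθ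
    have h4a : 4 * a ^ 2 < 1 := by nlinarith
    have hθ2 : θ ^ 2 = (1 + 4 * a ^ 2) / 2 := Real.sq_sqrt (by positivity)
    have hθ0 : 0 < θ := Real.sqrt_pos.2 (by positivity)
    have hθ1 : θ < 1 := by
      by_contra hcon
      push Not at hcon
      have : 1 ≤ θ ^ 2 := one_le_pow₀ hcon
      linarith
    set α : ℝ := 4 * a ^ 2 / θ ^ 2 with hα
    have hα0 : 0 ≤ α := by positivity
    have hα1 : α < 1 := by
      rw [hα, div_lt_one (by positivity)]
      linarith
    obtain ⟨d₀, hd₀⟩ := Pool.Agent.Run7.h533.AC.size_log (α := α) (β := 0) (c := 1 - θ) le_rfl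
      (by linarith) (by linarith)
    refine ⟨d₀ + 1, fun d hd K o p r hK hr h1 h2 => ?_⟩
    have hd1 : (1 : ℝ) ≤ d := by
      have : 1 ≤ d := by omega
      exact_mod_cast this
    have hL : 0 ≤ Real.logb 2 d := Real.logb_nonneg (by norm_num) hd1
    set N : ℕ := ⌈α * Real.logb 2 d⌉₊ + 1 with hN
    have hN1 : 1 ≤ N := by omega
    have hN2 : α * Real.logb 2 d ≤ N := by
      have : α * Real.logb 2 d ≤ (⌈α * Real.logb 2 d⌉₊ : ℝ) := Nat.le_ceil _
      rw [hN]
      push_cast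
      linarith
    have hN3 : (N : ℝ) ≤ α * Real.logb 2 d + 2 := by
      have : (⌈α * Real.logb 2 d⌉₊ : ℝ) < α * Real.logb 2 d + 1 :=
        Nat.ceil_lt_add_one (by positivity)
      rw [hN]
      push_cast
      linarith
    have h3 := hd₀ d (by omega) N hN1 hN3 (1 - θ) (by
      rw [neg_zero, Real.rpow_zero, mul_one])
    refine sums_few (signs (by omega) hK (ball_int hr h1) hN1 hθ0.le
      (ball_signs hr hθ0 h1 h2 hN1 ?_)) (signBound_lt h3)
    have e1 : 4 * (a * Real.sqrt (Real.logb 2 d)) ^ 2 = θ ^ 2 * (α * Real.logb 2 d) := by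
      rw [mul_pow, Real.sq_sqrt hL, hα]
      field_simp
    rw [e1]
    gcongr
  · intro D
    set N : ℕ := ⌈16 * D ^ 2⌉₊ + 1 with hN
    have hN1 : 1 ≤ N := by omega
    have hN2 : 16 * D ^ 2 ≤ N := by
      have : 16 * D ^ 2 ≤ (⌈16 * D ^ 2⌉₊ : ℝ) := Nat.le_ceil _
      rw [hN]
      push_cast
      linarith
    obtain ⟨q, hq0, hq2, d₀, hd₀⟩ := signBound_exp hN1 (show (1 / 2 : ℝ) < 1 by norm_num)
    refine ⟨q, hq0, hq2, d₀ + 1, fun d hd K o p r hK hr h1 h2 => ?_⟩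
    refine sums_mono (signs (by omega) hK (ball_int hr h1) hN1 (by norm_num)
      (ball_signs hr (by norm_num) h1 h2 hN1 ?_)) (hd₀ d (by omega))
    linarith
  · intro n δ D hn hδ0 hδ1 hD
    have hlim : Tendsto (fun j : ℕ => (1 - δ) ^ j * (2 * D)) atTop (𝓝 0) := by
      have := (tendsto_pow_atTop_nhds_zero_of_lt_one (show 0 ≤ 1 - δ by linarith)
        (by linarith)).mul_const (2 * D)
      rwa [zero_mul] at this
    obtain ⟨j, hj⟩ := (hlim.eventually (gt_mem_nhds (show (0 : ℝ) < 1 / 2 by norm_num))).exists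
    have hN1 : 1 ≤ n ^ j := Nat.one_le_pow _ _ hn
    obtain ⟨q, hq0, hq2, d₀, hd₀⟩ := signBound_exp hN1 (show (1 / 2 : ℝ) < 1 by norm_num)
    refine ⟨q, hq0, hq2, d₀ + 1, fun d hd C K o p hC hK h1 h2 => ?_⟩
    obtain ⟨⟨hCv, hCc, hCi⟩, hCs, H⟩ := hC
    have hoint : o ∈ interior K := by
      have h0 := Pool.Agent.Run7.h533.AC.zero_int hCv hCi hCs
      rw [mem_interior_iff_mem_nhds]
      have h3 : (fun x => x - o) ⁻¹' C ∈ 𝓝 o := by
        have hc : ContinuousAt (fun x : EuclideanSpace ℝ (Fin d) => x - o) o := by fun_prop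
        apply hc
        simpa using h0
      refine Filter.mem_of_superset h3 ?_
      intro x hx
      have := h1 (x - o) hx
      rwa [add_sub_cancel] at this
    refine sums_mono (signs (by omega) hK hoint hN1 (by norm_num) ?_) (hd₀ d (by omega))
    intro x y hx hy
    obtain ⟨b, v, hv, hbv⟩ := Pool.Agent.Run7.h533.AC.signs_body hCv hCc hCi hCs hn hδ1 H hD
      (show (0 : ℝ) < 1 / 2 by norm_num) h1 h2 hj.le x y hx hy
    exact ⟨fun i => sg (b i), fun i => sg_sign _, v, hv, hbv⟩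
  · intro d K hd hK o ho
    exact ⟨fun N θ hN hθ h => signs hd hK ho hN hθ h,
      fun k ε θ hk hε0 hε1 hθ h => simplices hd hK ho hk hε0 hε1 hθ h⟩
  · intro α β θ hα hβ hαβ hθ0 hθ1
    obtain ⟨d₀, hd₀⟩ := Pool.Agent.Run7.h533.AC.size_log (α := α) (β := β) (c := 1 - θ) hβ hαβ
      (by linarith)
    refine ⟨d₀ + 1, fun d hd K hK hfew o ho => ?_⟩
    have hd1 : (1 : ℝ) ≤ d := by
      have : 1 ≤ d := by omega
      exact_mod_cast this
    have hd0 : (0 : ℝ) < d := by linarith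
    have hL : 0 ≤ Real.logb 2 d := Real.logb_nonneg (by norm_num) hd1
    set k : ℕ := ⌈α * Real.logb 2 d⌉₊ + 1 with hk
    have hk1 : 1 ≤ k := by omega
    have hk2 : α * Real.logb 2 d ≤ k := by
      have : α * Real.logb 2 d ≤ (⌈α * Real.logb 2 d⌉₊ : ℝ) := Nat.le_ceil _
      rw [hk]
      push_cast
      linarith
    have hk3 : (k : ℝ) ≤ α * Real.logb 2 d + 2 := by
      have : (⌈α * Real.logb 2 d⌉₊ : ℝ) < α * Real.logb 2 d + 1 :=
        Nat.ceil_lt_add_one (by positivity)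
      rw [hk]
      push_cast
      linarith
    have hdβ : (d : ℝ) ^ (-β) ≤ 1 := Real.rpow_le_one_of_one_le_of_nonpos hd1 (by linarith)
    have hdβ0 : 0 < (d : ℝ) ^ (-β) := Real.rpow_pos_of_pos hd0 _
    refine ⟨⟨k + 1, ?_, ?_⟩, ⟨k, hk2, ?_⟩⟩
    · push_cast
      linarith
    · by_contra hcon
      have h3 := hd₀ d (by omega) k hk1 hk3 ((d : ℝ) ^ (-β) * (1 - θ)) (by
        rw [mul_comm])
      exact hfew (few_of_sums (sums_few (simplices (by omega) hK ho hk1 hdβ0 hdβ hθ0 hcon)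
        (simplexBound_lt h3)))
    · intro hcon
      have h3 := hd₀ d (by omega) k hk1 hk3 (1 - θ) (by
        have : 0 ≤ 1 - θ := by linarith
        calc (1 - θ) * (d : ℝ) ^ (-β) ≤ (1 - θ) * 1 := by gcongr
          _ = 1 - θ := mul_one _)
      exact hfew (few_of_sums (sums_few (signs (by omega) hK ho hk1 hθ0 hcon)
        (signBound_lt h3)))

end Pool.Agent.Results.MP_eba1ef_gt.BoundedDistanceToBall
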