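import Mathlib
import Pool.Agent.Run7.h924.SmH

set_option autoImplicit false

/-!
# MP_eba1ef_gt: lattice sums of convex bodies of bounded dimension, without symmetry

Let `h_ω`, `ω ∈ Ω`, be nonnegative sublinear functions on `ℝ^d`, each of which vanishes on a subspace
of codimension at most `n` (so `h_ω` is the gauge of a convex set of dimension at most `n`, composed
with a linear map; there is no symmetry), let `N` be a norm of functions on `Ω` which is monotone
and `q`-concave with constant one, `N(f)^q + N(g)^q ≤ N((|f|^q + |g|^q)^(1/q))^q`, and let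

  `K = {x | N(h(x)) ≤ 1}`

be bounded. For instance `K = {x | ∑ h_j(x)^q ≤ 1}` and all its sections, `∑ φ_j(h_j(x)) ≤ 1` with
Young functions `φ_j` such that `φ_j(t^(1/q))` is concave, mixed norms and integrals instead of sums.
For `n = 1` these are the bodies `N(⟨x, u_ω⟩_+) ≤ 1`: the unit balls of finite-dimensional subspaces
of `q`-concave Banach lattices (`QConcaveLattices`) and their asymmetric counterparts.

We prove: if the centroid `x₀` of `K` satisfies `g(-x₀) ≤ a` for the gauge `g` of `K` (`a = 0` if the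
centroid is `0`, for instance if `K` is centrally symmetric), then

  `c(K) ≤ 1 + 13 d log(2d²+2d+1) 2^d e^(-2s)`,
  `s = d^(1/(r+1)) / (5·10^6 (1+a) (n+r)^(3/2) r)`, `r = max(q,2)`,

and `c(K) < 2^d` if `s ≥ 6` and `s ≥ log d`. So for given `n`, `q` and `a` Hadwiger's conjecture
is true with strict inequality for all these bodies in all sufficiently high dimensions. (Clauses
(1), (2). In the definition `Ω` is compact and the functions are continuous, which is general by
Kakutani's theorem. Clauses (3), (4): function norms and Young families on measurable spaces,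
`h_ω = w(ω) F_θ(ω)` with `F` a continuous family on a compact space. Clause (5): an explicit example.
Clause (6): `a = 0` for centrally symmetric bodies.)

The proof. (a) By the criterion `AverageSmoothness` (for bodies without symmetry) it is enough to
bound the average `η(s)` of `g(z+sv) + g(z-sv) - 2g(z)` over `z, v ∈ K`. (b) Let `m(z,w)` be the mean
of order `q` of `h(z+w)` and `h(z-w)` (in the lattice). By `q`-concavity the second difference is at
most `2 N(m(z,sv) - h(z))`, and by Jensen's inequality for the concave function `Y ↦ N(Y^(1/q))^q` it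
is enough to bound `E (m(z,sv) - h(z))^q` for each `ω` separately. (c) Let `y_j = z - j s v`,
`0 ≤ j < M`. Along this line `h_ω` is a convex nonnegative function of slope at most
`G(v) = max(h_ω(v), h_ω(-v))`, and for every such function
`∑_j (m(y_j, sv) - h(y_j))^q ≤ 25 q² (s G(v))^q`: there is no factor `M`. (d) `h_ω` depends on `n`
coordinates only, whose density `ρ` is log-concave by Prékopa's theorem; so for `σ = js ≤ 1/(2(n+q))`
the mean of a function of `z - σ v` is at least `(1-σ)^n (ρ(v)/sup ρ)^σ` times the mean of the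
function of `(1-σ) z`. Hence, up to the factor `(ρ(v)/sup ρ)^(1/(n+q))`, the mean of each of the `M`
terms of the sum is at least a constant times that of the first one, and the latter is
`O(s^q / M) = O(s^(q+1))`. (e) In the same way (with Hahn-Banach) `G(v)` is at most
`C n (sup ρ/ρ(v))^(1/n)` times `E h_ω(z) + h_ω(-x₀)`; without symmetry this bound of `h_ω(-v)` is
needed. The mean of the small powers of `sup ρ/ρ(v)` is bounded, again by log-concavity.
(f) `N(E h(z) + h(-x₀)) ≤ 1 + a`.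
-/

namespace Pool.Agent.Results.MP_eba1ef_gt.LatticeSumsOfBodies

open MeasureTheory
open Pool.Agent.Run7.h924.Lat (IsQLat IsFunNorm IsYoung)
open Pool.Agent.Run7.h924.Sm (IsFam)

universe u v w

/-- `K = {x | N(F x) ≤ 1}` is bounded, where `N` is a lattice seminorm on `C(Ω)`, `Ω` compact,
which is `q`-concave with constant one, and `x ↦ F x ω` are nonnegative sublinear functions, each of
which vanishes on a subspace of codimension at most `n`. -/
def IsLatticeSum {d : ℕ} (n : ℕ) (q : ℝ) (K : Set (EuclideanSpace ℝ (Fin d))) : Prop :=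
  Bornology.IsBounded K ∧
  ∃ (Ω : Type u) (_ : TopologicalSpace Ω) (_ : CompactSpace Ω) (N : C(Ω, ℝ) → ℝ)
    (F : EuclideanSpace ℝ (Fin d) → C(Ω, ℝ)), IsQLat q N ∧ IsFam n F ∧ K = {x | N (F x) ≤ 1}

/-- The gauge of `K` at the opposite of the centroid of `K` is at most `a`. -/
def IsCentred {d : ℕ} (K : Set (EuclideanSpace ℝ (Fin d))) (a : ℝ) : Prop :=
  gauge K (-⨍ z in K, z) ≤ a

/-- a finite sum of powers of gauges -/
theorem finite_sum (d n m : ℕ) (q : ℝ) (hq : 1 ≤ q)
    (B : Fin m → Set (EuclideanSpace ℝ (Fin n))) (hB : ∀ j, Convex ℝ (B j))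
    (hB0 : ∀ j, (0 : EuclideanSpace ℝ (Fin n)) ∈ interior (B j))
    (T : Fin m → EuclideanSpace ℝ (Fin d) →ₗ[ℝ] EuclideanSpace ℝ (Fin n))
    (young : ∀ (d n : ℕ) (q : ℝ), 1 ≤ q → ∀ (Ω : Type) [MeasurableSpace Ω] (μ : Measure Ω)
      (φ : Ω → ℝ → ℝ), IsYoung q φ → ∀ (Θ : Type) [TopologicalSpace Θ] [CompactSpace Θ]
      [MeasurableSpace Θ] [BorelSpace Θ] (F : EuclideanSpace ℝ (Fin d) → C(Θ, ℝ)), IsFam n F →
      ∀ (w : Ω → ℝ) (θ : Ω → Θ), Measurable w → Measurable θ → (∀ ω, 0 ≤ w ω) →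
      Integrable (fun ω => φ ω (w ω)) μ →
      (∀ x, Integrable (fun ω => φ ω (w ω * F x (θ ω))) μ) →
      ∀ K : Set (EuclideanSpace ℝ (Fin d)), K = {x | ∫ ω, φ ω (w ω * F x (θ ω)) ∂μ ≤ 1} →
        Bornology.IsBounded K → IsLatticeSum.{0} n q K)
    (K : Set (EuclideanSpace ℝ (Fin d)))
    (hK : K = {x | ∑ j, gauge (B j) (T j x) ^ q ≤ 1}) (hb : Bornology.IsBounded K) :
    IsLatticeSum.{0} n q K := by
  have hq0 : 0 < q := by linarith
  have hnb : ∀ j, B j ∈ nhds (0 : EuclideanSpace ℝ (Fin n)) := fun j =>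
    mem_interior_iff_mem_nhds.1 (hB0 j)
  have habs : ∀ j, Absorbent ℝ (B j) := fun j => absorbent_nhds_zero (hnb j)
  let F : EuclideanSpace ℝ (Fin d) → C(Fin m, ℝ) := fun x =>
    ⟨fun j => gauge (B j) (T j x), continuous_of_discreteTopology⟩
  have hF : IsFam n F := by
    refine ⟨fun x j => gauge_nonneg _, fun x y j => ?_, fun c hc x j => ?_, fun j => ?_⟩
    · show gauge (B j) (T j (x + y)) ≤ gauge (B j) (T j x) + gauge (B j) (T j y)
      rw [map_add]
      exact gauge_add_le (hB j) (habs j) _ _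
    · show gauge (B j) (T j (c • x)) = c * gauge (B j) (T j x)
      rw [map_smul, gauge_smul_of_nonneg hc, smul_eq_mul]
    · refine ⟨LinearMap.ker (T j), fun w hw => ?_, ?_⟩
      · rw [LinearMap.mem_ker] at hw
        show gauge (B j) (T j w) = 0
        rw [hw, gauge_zero]
      · have h1 := LinearMap.finrank_range_add_finrank_ker (T j)
        have h2 : Module.finrank ℝ (LinearMap.range (T j)) ≤ n := by
          have := Submodule.finrank_le (LinearMap.range (T j))
          simpa using this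
        have h3 : Module.finrank ℝ (EuclideanSpace ℝ (Fin d)) = d := by simp
        omega
  have hY : IsYoung q (fun (_ : Fin m) (t : ℝ) => |t| ^ q) := by
    refine ⟨?_, fun _ => ?_, fun _ t _ => by positivity, fun _ => ?_, fun _ => ?_⟩
    · exact ((continuous_abs.rpow_const fun _ => Or.inr hq0.le).measurable).comp measurable_snd
    · simp [Real.zero_rpow hq0.ne']
    · have h1 := convexOn_rpow hq
      refine h1.congr fun t ht => ?_
      have ht' : (0 : ℝ) ≤ t := ht
      simp only [abs_of_nonneg ht']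
    · have h1 : ConcaveOn ℝ (Set.Ici (0 : ℝ)) fun t : ℝ => t := concaveOn_id (convex_Ici 0)
      refine h1.congr fun t ht => ?_
      have ht' : (0 : ℝ) ≤ t := ht
      simp only
      rw [abs_of_nonneg (by positivity), ← Real.rpow_mul ht', one_div_mul_cancel hq0.ne',
        Real.rpow_one]
  refine young d n q hq (Fin m) Measure.count _ hY (Fin m) F hF (fun _ => 1) id measurable_const
    measurable_id (fun _ => zero_le_one) Integrable.of_finite (fun x => Integrable.of_finite) K ?_ hb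
  rw [hK]
  ext x
  simp only [Set.mem_ofPred_eq, integral_count, one_mul, id]
  have e : ∀ j, |(F x) j| ^ q = gauge (B j) (T j x) ^ q := fun j => by
    show |gauge (B j) (T j x)| ^ q = _
    rw [abs_of_nonneg (gauge_nonneg _)]
  simp only [e]

/-- the centroid of a symmetric set -/
theorem centred_of_symm {d : ℕ} (K : Set (EuclideanSpace ℝ (Fin d))) (hK : MeasurableSet K)
    (hs : ∀ x ∈ K, -x ∈ K) : IsCentred K 0 := by
  have h1 : ∫ z in K, -z = ∫ z in K, z := by
    rw [← integral_indicator hK, ← integral_indicator hK]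
    rw [← integral_neg_eq_self (K.indicator fun z : EuclideanSpace ℝ (Fin d) => z)]
    congr 1
    funext z
    by_cases hz : z ∈ K
    · rw [Set.indicator_of_mem hz, Set.indicator_of_mem (hs z hz)]
    · have hz' : -z ∉ K := fun h => hz (by simpa using hs _ h)
      rw [Set.indicator_of_notMem hz, Set.indicator_of_notMem hz']
  have h2 : ∫ z in K, z = 0 := by
    rw [integral_neg] at h1
    set I := ∫ z in K, z
    have h2 : (2 : ℝ) • I = 0 := by
      rw [two_smul]
      nth_rewrite 1 [← h1]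
      exact neg_add_cancel I
    exact (smul_eq_zero.1 h2).resolve_left (by norm_num)
  unfold IsCentred
  rw [setAverage_eq, h2, smul_zero, neg_zero, gauge_zero]

/-- **Main theorem.** -/
theorem result :
    -- (1) the quantitative bound
    (∀ (d n : ℕ) (q a : ℝ), 2 ≤ d → 1 ≤ q → 0 ≤ a → ∀ K : Set (EuclideanSpace ℝ (Fin d)),
      IsLatticeSum.{u} n q K → IsCentred K a → ∀ r s : ℝ, r = max q 2 →
      s = (d : ℝ) ^ (1 / (r + 1)) / (5000000 * (1 + a) * (n + r) ^ (3 / 2 : ℝ) * r) →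
      ∃ T : Finset (EuclideanSpace ℝ (Fin d)),
        K ⊆ ⋃ t ∈ T, (fun x => t + x) '' interior K ∧
        (T.card : ℝ) ≤ 1 + 13 * d * Real.log (2 * d ^ 2 + 2 * d + 1) * 2 ^ d
          * Real.exp (-(2 * s)) ∧
        (6 ≤ s → Real.log d ≤ s → T.card < 2 ^ d)) ∧
    -- (2) Hadwiger's conjecture in high dimensions
    (∀ (n : ℕ) (q a : ℝ), 1 ≤ q → 0 ≤ a → ∃ d₀ : ℕ, ∀ d : ℕ, d₀ ≤ d →
      ∀ K : Set (EuclideanSpace ℝ (Fin d)), IsLatticeSum.{u} n q K → IsCentred K a →
        ∃ T : Finset (EuclideanSpace ℝ (Fin d)),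
          K ⊆ ⋃ t ∈ T, (fun x => t + x) '' interior K ∧ T.card < 2 ^ d) ∧
    -- (3) function norms on measurable spaces
    (∀ (d n : ℕ) (q : ℝ), 1 ≤ q → ∀ (Ω : Type v) [MeasurableSpace Ω] (N : (Ω → ℝ) → ENNReal),
      IsFunNorm q N → ∀ (Θ : Type w) [TopologicalSpace Θ] [CompactSpace Θ] [MeasurableSpace Θ]
      [BorelSpace Θ] (F : EuclideanSpace ℝ (Fin d) → C(Θ, ℝ)), IsFam n F →
      ∀ (w : Ω → ℝ) (θ : Ω → Θ), Measurable w → Measurable θ → N w ≠ ⊤ →
      ∀ K : Set (EuclideanSpace ℝ (Fin d)), K = {x | N (fun ω => w ω * F x (θ ω)) ≤ 1} →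
        Bornology.IsBounded K → IsLatticeSum.{w} n q K) ∧
    -- (4) measurable families of Young functions
    (∀ (d n : ℕ) (q : ℝ), 1 ≤ q → ∀ (Ω : Type v) [MeasurableSpace Ω] (μ : Measure Ω)
      (φ : Ω → ℝ → ℝ), IsYoung q φ → ∀ (Θ : Type w) [TopologicalSpace Θ] [CompactSpace Θ]
      [MeasurableSpace Θ] [BorelSpace Θ] (F : EuclideanSpace ℝ (Fin d) → C(Θ, ℝ)), IsFam n F →
      ∀ (w : Ω → ℝ) (θ : Ω → Θ), Measurable w → Measurable θ → (∀ ω, 0 ≤ w ω) →
      Integrable (fun ω => φ ω (w ω)) μ →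
      (∀ x, Integrable (fun ω => φ ω (w ω * F x (θ ω))) μ) →
      ∀ K : Set (EuclideanSpace ℝ (Fin d)), K = {x | ∫ ω, φ ω (w ω * F x (θ ω)) ∂μ ≤ 1} →
        Bornology.IsBounded K → IsLatticeSum.{w} n q K) ∧
    -- (5) for instance `ℓ_q`-sums of arbitrary convex sets of dimension `n`
    (∀ (d n m : ℕ) (q : ℝ), 1 ≤ q → ∀ B : Fin m → Set (EuclideanSpace ℝ (Fin n)),
      (∀ j, Convex ℝ (B j)) → (∀ j, (0 : EuclideanSpace ℝ (Fin n)) ∈ interior (B j)) →
      ∀ (T : Fin m → EuclideanSpace ℝ (Fin d) →ₗ[ℝ] EuclideanSpace ℝ (Fin n))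
        (K : Set (EuclideanSpace ℝ (Fin d))), K = {x | ∑ j, gauge (B j) (T j x) ^ q ≤ 1} →
        Bornology.IsBounded K → IsLatticeSum.{0} n q K) ∧
    -- (6) the centroid of a centrally symmetric body
    (∀ (d : ℕ) (K : Set (EuclideanSpace ℝ (Fin d))), MeasurableSet K → (∀ x ∈ K, -x ∈ K) →
      IsCentred K 0) := by
  have main : ∀ (d n : ℕ) (q a : ℝ), 2 ≤ d → 1 ≤ q → 0 ≤ a →
      ∀ K : Set (EuclideanSpace ℝ (Fin d)),
      IsLatticeSum.{u} n q K → IsCentred K a → ∀ r s : ℝ, r = max q 2 →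
      s = (d : ℝ) ^ (1 / (r + 1)) / (5000000 * (1 + a) * (n + r) ^ (3 / 2 : ℝ) * r) →
      ∃ T : Finset (EuclideanSpace ℝ (Fin d)),
        K ⊆ ⋃ t ∈ T, (fun x => t + x) '' interior K ∧
        (T.card : ℝ) ≤ 1 + 13 * d * Real.log (2 * d ^ 2 + 2 * d + 1) * 2 ^ d
          * Real.exp (-(2 * s)) ∧
        (6 ≤ s → Real.log d ≤ s → T.card < 2 ^ d) := by
    rintro d n q a hd hq ha K ⟨hb, Ω, hΩ, hΩc, N, F, L, H, hK⟩ hcen r s hr hs
    have hqr : q ≤ r := by rw [hr]; exact le_max_left _ _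
    have h2r : 2 ≤ r := by rw [hr]; exact le_max_right _ _
    exact Pool.Agent.Run7.h924.Sm.cover_sum H (L.up (by linarith) hqr) hd h2r K hK hb a ha hcen s hs
  have young : ∀ (d n : ℕ) (q : ℝ), 1 ≤ q → ∀ (Ω : Type v) [MeasurableSpace Ω] (μ : Measure Ω)
      (φ : Ω → ℝ → ℝ), IsYoung q φ → ∀ (Θ : Type w) [TopologicalSpace Θ] [CompactSpace Θ]
      [MeasurableSpace Θ] [BorelSpace Θ] (F : EuclideanSpace ℝ (Fin d) → C(Θ, ℝ)), IsFam n F →
      ∀ (w : Ω → ℝ) (θ : Ω → Θ), Measurable w → Measurable θ → (∀ ω, 0 ≤ w ω) →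
      Integrable (fun ω => φ ω (w ω)) μ →
      (∀ x, Integrable (fun ω => φ ω (w ω * F x (θ ω))) μ) →
      ∀ K : Set (EuclideanSpace ℝ (Fin d)), K = {x | ∫ ω, φ ω (w ω * F x (θ ω)) ∂μ ≤ 1} →
        Bornology.IsBounded K → IsLatticeSum.{w} n q K := by
    intro d n q hq Ω _ μ φ Y Θ _ _ _ _ F hF w θ hw hθ hw0 hint0 hint K hK hb
    have hN : Pool.Agent.Run7.h924.Lat.lux φ μ w ≠ ⊤ := by
      refine Pool.Agent.Run7.h924.Lat.lux_ne_top Y w ?_
      have e : ∀ ω, |w ω| = w ω := fun ω => abs_of_nonneg (hw0 ω)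
      simpa only [e] using hint0
    have hL := Pool.Agent.Run7.h924.Lat.lux_isFunNorm (μ := μ) Y hq
    refine ⟨hb, Θ, inferInstance, inferInstance, _, F,
      Pool.Agent.Run7.h924.Sm.NW_isQLat hL (by linarith) hw hθ hN, hF, ?_⟩
    refine Pool.Agent.Run7.h924.Sm.eq_body hL hw hθ hN F K ?_
    exact Pool.Agent.Run7.h924.Sm.eq_young' Y hq (fun x ω => w ω * F x (θ ω))
      (fun x ω => mul_nonneg (hw0 ω) (hF.nonneg _ _)) hint K hK
  have young0 : ∀ (d n : ℕ) (q : ℝ), 1 ≤ q → ∀ (Ω : Type) [MeasurableSpace Ω] (μ : Measure Ω)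
      (φ : Ω → ℝ → ℝ), IsYoung q φ → ∀ (Θ : Type) [TopologicalSpace Θ] [CompactSpace Θ]
      [MeasurableSpace Θ] [BorelSpace Θ] (F : EuclideanSpace ℝ (Fin d) → C(Θ, ℝ)), IsFam n F →
      ∀ (w : Ω → ℝ) (θ : Ω → Θ), Measurable w → Measurable θ → (∀ ω, 0 ≤ w ω) →
      Integrable (fun ω => φ ω (w ω)) μ →
      (∀ x, Integrable (fun ω => φ ω (w ω * F x (θ ω))) μ) →
      ∀ K : Set (EuclideanSpace ℝ (Fin d)), K = {x | ∫ ω, φ ω (w ω * F x (θ ω)) ∂μ ≤ 1} →
        Bornology.IsBounded K → IsLatticeSum.{0} n q K := by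
    intro d n q hq Ω _ μ φ Y Θ _ _ _ _ F hF w θ hw hθ hw0 hint0 hint K hK hb
    have hN : Pool.Agent.Run7.h924.Lat.lux φ μ w ≠ ⊤ := by
      refine Pool.Agent.Run7.h924.Lat.lux_ne_top Y w ?_
      have e : ∀ ω, |w ω| = w ω := fun ω => abs_of_nonneg (hw0 ω)
      simpa only [e] using hint0
    have hL := Pool.Agent.Run7.h924.Lat.lux_isFunNorm (μ := μ) Y hq
    refine ⟨hb, Θ, inferInstance, inferInstance, _, F,
      Pool.Agent.Run7.h924.Sm.NW_isQLat hL (by linarith) hw hθ hN, hF, ?_⟩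
    refine Pool.Agent.Run7.h924.Sm.eq_body hL hw hθ hN F K ?_
    exact Pool.Agent.Run7.h924.Sm.eq_young' Y hq (fun x ω => w ω * F x (θ ω))
      (fun x ω => mul_nonneg (hw0 ω) (hF.nonneg _ _)) hint K hK
  refine ⟨main, ?_, ?_, young, ?_, fun d K hK hs => centred_of_symm K hK hs⟩
  · intro n q a hq ha
    obtain ⟨d₀, hd₀⟩ := Pool.Agent.Run7.h924.Sm.exists_dim n (max q 2) a (le_max_right _ _) ha
    refine ⟨max d₀ 2, fun d hd K hK hcen => ?_⟩
    obtain ⟨h5, hlog⟩ := hd₀ d (le_trans (le_max_left _ _) hd)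
    obtain ⟨T, h1, -, h3⟩ :=
      main d n q a (le_trans (le_max_right _ _) hd) hq ha K hK hcen _ _ rfl rfl
    exact ⟨T, h1, h3 h5 hlog⟩
  · intro d n q hq Ω _ N hN Θ _ _ _ _ F hF w θ hw hθ hNw K hK hb
    exact ⟨hb, Θ, inferInstance, inferInstance, _, F,
      Pool.Agent.Run7.h924.Sm.NW_isQLat hN (by linarith) hw hθ hNw, hF,
      Pool.Agent.Run7.h924.Sm.eq_body hN hw hθ hNw F K hK⟩
  · intro d n m q hq B hB hB0 T K hK hb
    exact finite_sum d n m q hq B hB hB0 T young0 K hK hb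

end Pool.Agent.Results.MP_eba1ef_gt.LatticeSumsOfBodies
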