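import Mathlib
import Pool.Agent.Run7.h533.AC.Apps3
import Pool.Agent.Run7.h533.AC.Apps4
import Pool.Agent.Run7.h533.AC.Num

set_option autoImplicit false

/-!
# MP_eba1ef_gt: convex bodies (not necessarily symmetric) with thin supporting caps

Let `K` be a convex body in `ℝ^d` with barycentre `0` and gauge `g`; no symmetry is assumed. For
each `z ≠ 0` in `K` let `bd z = z / g(z)` be the boundary point on the ray of `z`; shares of the
boundary are measured by the volume of the corresponding points `z` (the cone measure).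

**Caps.** If for a share `β` of the points `z` there is a supporting halfspace `φ ≤ 1` at `bd z`
such that the cap `{φ ≥ 1 - δ}` of `K` of the relative depth `δ` has at most the fraction `τ` of the
volume of `K`, then
`c(K) ≤ 300 L² d log(d+1) 2^d max(τ, e^(-d))^(β δ²/(72 L²))`, `L = log₂(16/δ)`.
So `c(K) < 2^d` in high dimension as soon as `τ` is below some power `d^(-N)`, `N = N(δ, β)`, and
`c(K) ≤ q^d` with `q < 2` if `τ` is exponentially small. The depth `δ` may be arbitrarily small: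
only the part of `K` next to the supporting hyperplane counts. (In the result
`AsymmetricThinSlabs` the two-sided slab `|φ| ≥ 1/4` had to be thin.)

**Consequences.**
* It is enough that for a share `β` of the boundary points `x` the midpoint of `x` and `y` is in
  `(1-δ) K` for all but the fraction `τ` of the points `y` of `K`; in particular it is enough that
  `K` is uniformly convex at the share `β` of its boundary points, or that the midpoints of all but
  a small share `ε` of the pairs of points of `K` are in `(1-δ) K`.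
* It is enough that `K` contains a ball of radius `κ R` and that a share `β` of its boundary points
  lies on the sphere of some ball of radius `R` which contains `K`: then `c(K) ≤ q^d` for all
  `d ≥ d₀`, with `q < 2` and `d₀` depending on `κ` and `β` only. The rest of the boundary is
  arbitrary.
* So every intersection of balls of radius `R` (spindle convex bodies, ball polyhedra) which
  contains a ball of radius `κ R` satisfies the conjecture in high dimension, exponentially
  strongly. If the distances of the centres are at most `D R`, `D < √2`, then such a ball exists.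

All bounds hold for `K + B` as well, for every nonempty compact convex set `B`.

**Proof.** Let `A` be a finite set of points of `K` (of a net of `K`, in the greedy covering) such
that no translate of `l K`, `l` close to `1`, contains more than the share `q` of `A`. For random
points `x` of `A` and a random point `s` with a density bounded by `Λ` the density of `(x+s)/2` has
a bound in `L²` (its square integral is an average of volumes of intersections of translates of the
same body, as in `AllConvexBodies`), and so, after removing an event of probability `1/C`, it is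
bounded by `C 2^d q Λ`. By iteration the dyadic sums `x₁/2 + x₂/4 + ... + x_m/2^m + s/2^m` have a
density bounded by `(C 2^d q)^m`, up to the probability `m/C`. Signs are not needed.

Let `P` be the gauge of the intersection of the halfspaces with thin caps. (1) For a thin
`φ` hardly any of the sums `v = x₁/2 + ... + x_m/2^m` has `φ(v) ≥ 1 - 2^(-m) - δ/2`: otherwise,
as `φ ≥ -1` on at least half of `K` (barycentre), too many of the sums `v + s/2^m` were in the thin
cap. (2) The volume of `K ∩ {P ≤ 1-k/d}` is at most `e^(-βk/2) |K|` (Brunn-Minkowski), so that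
`P(v + s/2^m) > 1-k/d` for most of the sums. But then `w = s + t v`, with `t` of the order
`k 2^m/(δ d)`, is so far outside of `P` that the functional `φ` which is largest at `w` has
`φ(v) ≥ 1 - 2^(-m) - δ/2`. By (1) only few `v` are possible for each `w`, and `w` is in `(1+t) K`,
a set of volume `≤ e^(td) |K|`. So this happens rarely, a contradiction if `q` is small.
-/

namespace Pool.Agent.Results.MP_eba1ef_gt.CapsOfSmallVolume

open MeasureTheory Metric
open scoped Pointwise ENNReal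
open Pool.Agent.Run7.h533.AC

/-- A convex body in `ℝ^d`. -/
def Body {d : ℕ} (K : Set (EuclideanSpace ℝ (Fin d))) : Prop :=
  Convex ℝ K ∧ IsCompact K ∧ (interior K).Nonempty

/-- `K` is covered by at most `N` translates of its interior. -/
def CoveredByAtMost {d : ℕ} (N : ℝ) (K : Set (EuclideanSpace ℝ (Fin d))) : Prop :=
  ∃ T : Finset (EuclideanSpace ℝ (Fin d)), (T.card : ℝ) ≤ N ∧
    K ⊆ ⋃ t ∈ T, (fun x => t + x) '' interior K

/-- For every nonempty compact convex set `B` (for example for a point) the sum `K + B` is a convex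
body which is covered by at most `N` translates of its interior. -/
def SumsCovered {d : ℕ} (N : ℝ) (K : Set (EuclideanSpace ℝ (Fin d))) : Prop :=
  ∀ B : Set (EuclideanSpace ℝ (Fin d)), Convex ℝ B → IsCompact B → B.Nonempty →
    Body (K + B) ∧ CoveredByAtMost N (K + B)

/-- The volume of `S` is at least `β` times the volume of `K`. -/
def HasShare {d : ℕ} (β : ℝ) (S K : Set (EuclideanSpace ℝ (Fin d))) : Prop :=
  ENNReal.ofReal β * volume K ≤ volume S

/-- The boundary point of `K` on the ray from `0` through `z`. -/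
noncomputable def bd {d : ℕ} (K : Set (EuclideanSpace ℝ (Fin d))) (z : EuclideanSpace ℝ (Fin d)) :
    EuclideanSpace ℝ (Fin d) := (gauge K z)⁻¹ • z

/-- The points `z` of `K` for which there is a functional `φ` with `φ ≤ 1` on `K` and `φ z = g z`
such that the cap `{φ ≥ 1 - δ}` of `K` has at most the fraction `τ` of the volume of `K`. -/
def thinPart {d : ℕ} (K : Set (EuclideanSpace ℝ (Fin d))) (δ τ : ℝ) :
    Set (EuclideanSpace ℝ (Fin d)) :=
  {z | z ∈ K ∧ ∃ φ : EuclideanSpace ℝ (Fin d) →L[ℝ] ℝ, ((∀ x ∈ K, φ x ≤ 1) ∧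
    volume ({y | 1 - δ ≤ φ y} ∩ K) ≤ ENNReal.ofReal τ * volume K) ∧ φ z = gauge K z}

/-- The points `z ≠ 0` of `K` for which the midpoint of `bd z` and `y` is in `(1 - δ) K` for all but
the fraction `τ` of the points `y` of `K`. -/
def rotundPart {d : ℕ} (K : Set (EuclideanSpace ℝ (Fin d))) (δ τ : ℝ) :
    Set (EuclideanSpace ℝ (Fin d)) :=
  {z | z ∈ K ∧ z ≠ 0 ∧ volume {y | y ∈ K ∧ (1 / 2 : ℝ) • (bd K z + y) ∉ (1 - δ) • K}
    ≤ ENNReal.ofReal τ * volume K}

/-- The points `z ≠ 0` of `K` for which the midpoint of `bd z` and `y` is in `(1 - δ) K` for all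
`y ∈ K` for which `bd z - y` is not in `θ K`. -/
def uniformPart {d : ℕ} (K : Set (EuclideanSpace ℝ (Fin d))) (δ θ : ℝ) :
    Set (EuclideanSpace ℝ (Fin d)) :=
  {z | z ∈ K ∧ z ≠ 0 ∧ ∀ y ∈ K, bd K z - y ∉ θ • K → (1 / 2 : ℝ) • (bd K z + y) ∈ (1 - δ) • K}

/-- The points `z ≠ 0` of `K` for which `bd z` is on the sphere of a ball of radius `R` which
contains `K`. -/
def curvedPart {d : ℕ} (K : Set (EuclideanSpace ℝ (Fin d))) (R : ℝ) :
    Set (EuclideanSpace ℝ (Fin d)) :=
  {z | z ∈ K ∧ z ≠ 0 ∧ ∃ c, K ⊆ closedBall c R ∧ ‖bd K z - c‖ = R}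

/-- The share of the pairs of points of `K` whose midpoint is not in `(1 - δ) K` is at most `ε`. -/
def FewFlatPairs {d : ℕ} (K : Set (EuclideanSpace ℝ (Fin d))) (δ ε : ℝ) : Prop :=
  ((volume : Measure (EuclideanSpace ℝ (Fin d))).prod volume)
      {p | p.1 ∈ K ∧ p.2 ∈ K ∧ (1 / 2 : ℝ) • (p.1 + p.2) ∉ (1 - δ) • K}
    ≤ ENNReal.ofReal ε * volume K ^ 2

/-- `300 L² d log(d+1) 2^d max(τ, e^(-d))^(β δ² / (72 L²))` with `L = log₂ (16/δ)` -/
noncomputable def capBound (d : ℕ) (δ τ β : ℝ) : ℝ :=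
  300 * Real.logb 2 (16 / δ) ^ 2 * d * Real.log (d + 1) * 2 ^ d
    * (max τ (Real.exp (-d))) ^ (β * δ ^ 2 / (72 * Real.logb 2 (16 / δ) ^ 2))

theorem body_add {d : ℕ} {K B : Set (EuclideanSpace ℝ (Fin d))} (hK : Body K) (hB : Convex ℝ B)
    (hBc : IsCompact B) (hBn : B.Nonempty) : Body (K + B) := by
  refine ⟨hK.1.add hB, hK.2.1.add hBc, ?_⟩
  obtain ⟨a, ha⟩ := hK.2.2
  obtain ⟨b, hb⟩ := hBn
  have hopen : IsOpen (interior K + B) := isOpen_interior.add_right
  exact ⟨a + b, interior_maximal (Set.add_subset_add_right interior_subset) hopen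
    (Set.add_mem_add ha hb)⟩

theorem sums {d : ℕ} {K : Set (EuclideanSpace ℝ (Fin d))} {N : ℝ} (hK : Body K)
    (h : ∀ B : Set (EuclideanSpace ℝ (Fin d)), ∃ T : Finset (EuclideanSpace ℝ (Fin d)),
      K + B ⊆ ⋃ t ∈ T, (fun x => t + x) '' interior (K + B) ∧ (T.card : ℝ) ≤ N) :
    SumsCovered N K := by
  intro B hB hBc hBn
  obtain ⟨T, hT, hTc⟩ := h B
  exact ⟨body_add hK hB hBc hBn, T, hTc, hT⟩

theorem ball_body {d : ℕ} {X : Set (EuclideanSpace ℝ (Fin d))} (hX : X.Nonempty) {κ R : ℝ}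
    (hκ : 0 < κ) (hR : 0 < R) {o : EuclideanSpace ℝ (Fin d)}
    (ho : closedBall o (κ * R) ⊆ ⋂ c ∈ X, closedBall c R) : Body (⋂ c ∈ X, closedBall c R) := by
  refine ⟨Pool.Agent.Run7.h533.CW.ballBody_convex X R,
    Pool.Agent.Run7.h533.CW.ballBody_compact hX R, o, ?_⟩
  rw [mem_interior_iff_mem_nhds]
  exact Filter.mem_of_superset (closedBall_mem_nhds o (by positivity)) ho

theorem sqrt_facts {D : ℝ} (hD0 : 0 ≤ D) (hD : D < Real.sqrt 2) :
    0 < (1 - D / Real.sqrt 2) / 2 ∧ (1 - D / Real.sqrt 2) / 2 ≤ 1 := by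
  have hs : 0 < Real.sqrt 2 := by positivity
  have hq : D / Real.sqrt 2 < 1 := by rw [div_lt_one hs]; exact hD
  have hq0 : 0 ≤ D / Real.sqrt 2 := by positivity
  constructor <;> linarith

theorem logb_pos' {a δ : ℝ} (ha : 2 ≤ a) (hδ0 : 0 < δ) (hδ1 : δ ≤ 1) :
    1 ≤ Real.logb 2 (a / δ) := by
  rw [Real.le_logb_iff_rpow_le (by norm_num) (by positivity), le_div_iff₀ hδ0]
  norm_num
  linarith

/-- **Main theorem.** -/
theorem result :
    -- bodies with barycentre `0`
    (∀ (d : ℕ) (K : Set (EuclideanSpace ℝ (Fin d))), 2 ≤ d → Body K → ∫ x in K, x = 0 →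
      -- thin caps, rotund points, uniformly rotund points, curved points
      (∀ β : ℝ, 0 < β → β ≤ 1 →
        (∀ δ τ : ℝ, 0 < δ → δ ≤ 1 → τ ≤ 1 → HasShare β (thinPart K δ τ) K →
          SumsCovered (capBound d δ τ β) K) ∧
        (∀ δ τ : ℝ, 0 < δ → δ ≤ 1 → τ ≤ 1 → HasShare β (rotundPart K δ τ) K →
          SumsCovered (capBound d δ τ β) K) ∧
        (∀ δ θ : ℝ, 0 < δ → δ ≤ 1 → 0 ≤ θ → θ ≤ 1 → HasShare β (uniformPart K δ θ) K →
          SumsCovered (capBound d δ (θ ^ d) β) K) ∧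
        (∀ (κ R : ℝ) (o : EuclideanSpace ℝ (Fin d)), 0 < κ → κ ≤ 1 → 0 < R →
          closedBall o (κ * R) ⊆ K → HasShare β (curvedPart K R) K →
          SumsCovered (capBound d (κ ^ 2 / 16) ((1 / 2) ^ d) β) K)) ∧
      -- pairs of points
      (∀ δ ε : ℝ, 0 < δ → δ ≤ 1 → 0 < ε → 4 * ε ≤ 1 → 2 ≤ δ * d → FewFlatPairs K δ ε →
        SumsCovered (capBound d (δ / 2) (4 * ε) (1 / 2)) K)) ∧
    -- intersections of balls
    (∀ (d : ℕ) (X : Set (EuclideanSpace ℝ (Fin d))), 2 ≤ d → X.Nonempty → ∀ R : ℝ, 0 < R →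
      (∀ (κ : ℝ) (o : EuclideanSpace ℝ (Fin d)), 0 < κ → κ ≤ 1 →
        closedBall o (κ * R) ⊆ ⋂ c ∈ X, closedBall c R →
        SumsCovered (capBound d (κ ^ 2 / 16) ((1 / 2) ^ d) 1) (⋂ c ∈ X, closedBall c R)) ∧
      (∀ D : ℝ, 0 ≤ D → D < Real.sqrt 2 → (∀ c ∈ X, ∀ c' ∈ X, ‖c - c'‖ ≤ D * R) →
        SumsCovered (capBound d (((1 - D / Real.sqrt 2) / 2) ^ 2 / 16) ((1 / 2) ^ d) 1)
          (⋂ c ∈ X, closedBall c R))) ∧
    -- the size of the bound
    (∀ δ β : ℝ, 0 < δ → δ ≤ 1 → 0 < β →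
      (∀ θ : ℝ, 0 ≤ θ → θ < 1 → ∃ q : ℝ, 0 < q ∧ q < 2 ∧ ∃ N : ℕ, ∀ d : ℕ, N ≤ d →
        capBound d δ (θ ^ d) β ≤ q ^ d) ∧
      (∃ N d₀ : ℕ, ∀ d : ℕ, d₀ ≤ d → capBound d δ (1 / (d : ℝ) ^ N) β < 2 ^ d)) := by
  refine ⟨?_, ?_, ?_⟩
  · intro d K hd hKB hbar
    obtain ⟨hK, hKc, hKi⟩ := hKB
    refine ⟨fun β hβ0 hβ1 => ⟨?_, ?_, ?_, ?_⟩, ?_⟩
    · intro δ τ hδ0 hδ1 hτ1 hS
      exact sums ⟨hK, hKc, hKi⟩ (cap_all hd hK hKc hKi hbar hδ0 hδ1 hτ1 hβ0 hβ1 hS)
    · intro δ τ hδ0 hδ1 hτ1 hS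
      exact sums ⟨hK, hKc, hKi⟩ (rotund_all hd hK hKc hKi hbar hδ0 hδ1 hτ1 hβ0 hβ1 hS)
    · intro δ θ hδ0 hδ1 hθ0 hθ1 hS
      exact sums ⟨hK, hKc, hKi⟩
        (uniform_share hd hK hKc hKi hbar hδ0 hδ1 hθ0 hθ1 hβ0 hβ1 hS)
    · intro κ R o hκ0 hκ1 hR ho hS
      exact sums ⟨hK, hKc, hKi⟩ (curved_all hd hK hKc hKi hbar hκ0 hκ1 hR hβ0 hβ1 ho hS)
    · intro δ ε hδ0 hδ1 hε0 hε1 hdδ hbad
      exact sums ⟨hK, hKc, hKi⟩ (rotund_all hd hK hKc hKi hbar (by positivity) (by linarith) hε1
        (by norm_num) (by norm_num)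
        (pairs_rotund hK hKc (centred_nhds hK hKc hKi hbar) hδ0 hδ1 hε0 hdδ hbad))
  · intro d X hd hX R hR
    refine ⟨?_, ?_⟩
    · intro κ o hκ0 hκ1 ho
      exact sums (ball_body hX hκ0 hR ho) (balls_all hd hX hκ0 hκ1 hR ho)
    · intro D hD0 hD hX2
      obtain ⟨h1, h2⟩ := sqrt_facts hD0 hD
      obtain ⟨o, ho⟩ := ball_inside hX hR hD0 hD hX2
      exact sums (ball_body hX h1 hR ho) (balls_all hd hX h1 h2 hR ho)
  · intro δ β hδ0 hδ1 hβ0
    have hL : 1 ≤ Real.logb 2 (16 / δ) := logb_pos' (by norm_num) hδ0 hδ1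
    have hC1 : 0 < 300 * Real.logb 2 (16 / δ) ^ 2 := by positivity
    have hc1 : 0 < β * δ ^ 2 / (72 * Real.logb 2 (16 / δ) ^ 2) := by positivity
    refine ⟨?_, ?_⟩
    · intro θ hθ0 hθ1
      obtain ⟨q, hq0, hq2, N, hN⟩ := num_exp hC1 hc1 one_pos hθ0 hθ1
      refine ⟨q, hq0, hq2, N, fun d hd => ?_⟩
      have h := hN d hd
      rw [one_mul] at h
      exact h
    · obtain ⟨N, d₀, hN⟩ := num_poly hC1 hc1 one_pos
      refine ⟨N, d₀, fun d hd => ?_⟩
      have h := hN d hd
      rw [one_mul] at h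
      exact h

end Pool.Agent.Results.MP_eba1ef_gt.CapsOfSmallVolume
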