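import Pool.Agent.Run7.h414.HC.Cor

set_option autoImplicit false

/-!
# MP_eba1ef_gt: sums of convex bodies with interchangeable coordinates

Let `C_j` be convex bodies in `ℝ^(d_j)`, `j < k`, with `0` in the interior, and let `g_j` be the
gauge (Minkowski functional) of `C_j`. For a convex set `M` in `ℝ^k` put
`K = {x : (g_0 (x_0), …, g_(k-1) (x_(k-1))) ∈ M}`; if `M` is the unit ball of an unconditional norm
this is the unit ball of the corresponding sum. Bounds `c(K) ≤ ∏ c(C_j)` for all unconditional `M`
would contain the conjecture for all bodies symmetric about the coordinate hyperplanes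
(`C_j = [-1, 1]`), which is open in high dimension. They were known if `M` is strictly monotone, if
`∑ 1 / c(C_j) ≤ 1`, for `k ≤ 3`, and for `M` given by conditions on pairs of coordinates.

Here the coordinates are divided into blocks by a map `β`, and the bound is proved if `M` is
*balanced* in each block and the blocks satisfy the Kraft inequality
`∑_b ∏_(β j = b) 1 / N_j ≤ 1`, where `c(C_j) ≤ N_j`, `N_j ≥ 2`. Balanced means that near each point of
`M` a small amount of a large coordinate may be exchanged for a still smaller amount of a small
coordinate of the same block. For instance, this holds if `M` is invariant under the permutations of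
each block, or if it is strictly monotone. For one block the Kraft inequality is always true: so
`c(K) ≤ ∏ c(C_j)` for all sums with respect to a symmetric norm of `ℝ^k`, for every `k`. The case
`C_j = [-1, 1]` says that a convex body `K` in `ℝ^n`, symmetric about the coordinate hyperplanes and
under the permutations of the coordinates in each block, is covered by `2 ^ n` translates of its
interior if `∑_b 2^(-|b|) ≤ 1`, for instance for at most `2 ^ m` blocks of at least `m` coordinates.

Proof. Let `v_c`, `c < N_j`, be the translation vectors of `C_j`. The directions are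
`(a_j(c) v_(c_j))_j`, one for each tuple `c` of indices. A coordinate of `x` is active if `g_j (x_j)`
is at least `η`, where the scale `η` depends on `x` and is chosen such that the inactive coordinates
are much smaller. By the lemma on tops of sign patterns every tuple has one top coordinate in each
block, such that all indices prescribed at some active coordinates of the block can be extended to
a tuple with active top. By the lemma on chains of partial choices (Hall's theorem and the
Kraft inequality), applied to the blocks instead of the coordinates, the blocks can be ordered for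
every tuple such that the blocks with active coordinates are above the other ones. The weights are
`a_j(c) = ε δ ^ (2 (q - rank of the block)) `, times `δ` if `j` is not the top of its block. The gain
at the active top beats the losses at the inactive coordinates of its block, because `M` is
balanced, and the gain at every active coordinate beats the losses in the blocks below.
-/

namespace Pool.Agent.Results.MP_eba1ef_gt.BlockSymmetricSums

open Finset

/-- `Covered N K` means that `K` is covered by at most `N` translates of its interior, i.e.
`c(K) ≤ N`. -/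
def Covered {V : Type*} [TopologicalSpace V] [Add V] (N : ℕ) (K : Set V) : Prop :=
  ∃ T : Finset V, T.card ≤ N ∧ K ⊆ ⋃ t ∈ T, (fun x => t + x) '' interior K

/-- `M` is solid: if `x ∈ M` and `y i` lies between `0` and `x i` for all `i`, then `y ∈ M`. -/
def Solid {k : ℕ} (M : Set (Fin k → ℝ)) : Prop :=
  ∀ x ∈ M, ∀ y : Fin k → ℝ, (∀ i, y i ∈ Set.uIcc 0 (x i)) → y ∈ M

/-- `M` is balanced in the blocks of `β`: for every `η > 0` there is `l > 0` such that for all
`x ∈ M` with `x ≥ 0` and all different `i`, `j` in the same block with `x i ≥ η` and `x j ≤ l`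
one may replace `x i` by `x i - η` and `x j` by `x j + l`. -/
def Balanced {k r : ℕ} (β : Fin k → Fin r) (M : Set (Fin k → ℝ)) : Prop :=
  ∀ η : ℝ, 0 < η → ∃ l : ℝ, 0 < l ∧ ∀ x ∈ M, (∀ i, 0 ≤ x i) → ∀ i j, β i = β j → i ≠ j →
    η ≤ x i → x j ≤ l → x - Pi.single i η + Pi.single j l ∈ M

/-- (1) Let `C j ⊆ ℝ^(d j)`, `j < k`, be convex bodies with `0` in the interior, covered by at most
`N j` translates of their interiors, `N j ≥ 2`. Let the coordinates be divided into `r` nonempty
blocks by `β` such that the sum over the blocks of the products of the `1 / N j` is at most one.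
Let `M ⊆ ℝ^k` be a closed convex solid neighbourhood of `0` which is balanced in the blocks. If the
set `K` of the `x` such that the vector of the gauges `g_j (x_j)` is in `M` is bounded, then `K` is
a convex body and it is covered by at most `∏ N j` translates of its interior.

(2) Convex solid sets which are symmetric under the transpositions of coordinates of the same block
are balanced.

(3) So are the closed sets `M` which are strictly monotone: if `x ∈ M`, `x ≥ 0` and if one makes one
coordinate smaller, but not negative, then one gets an interior point (if the set of these `x`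
is bounded).

(4) Let `K` be a convex body in `ℝ^n`, symmetric about the coordinate hyperplanes and under the
transpositions of coordinates of the same block, where the coordinates are divided into `r` nonempty
blocks and the sum over the blocks of the numbers `(1 / 2) ^ (size of the block)` is at most one.
Then `c(K) ≤ 2 ^ n`. -/
theorem result :
    (∀ (k r : ℕ) (β : Fin k → Fin r), Function.Surjective β → ∀ (d : Fin k → ℕ)
      (C : ∀ j, Set (EuclideanSpace ℝ (Fin (d j)))),
      (∀ j, Convex ℝ (C j)) → (∀ j, IsCompact (C j)) → (∀ j, 0 ∈ interior (C j)) →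
      ∀ N : Fin k → ℕ, (∀ j, 2 ≤ N j) → (∀ j, Covered (N j) (C j)) →
      (∑ b, ∏ j ∈ univ.filter (fun j => β j = b), (1 : ℝ) / N j ≤ 1) →
      ∀ M : Set (Fin k → ℝ), IsClosed M → Convex ℝ M → 0 ∈ interior M → Solid M →
      Balanced β M → ∀ K : Set (∀ j, EuclideanSpace ℝ (Fin (d j))),
      K = {x | (fun j => gauge (C j) (x j)) ∈ M} → Bornology.IsBounded K →
      Convex ℝ K ∧ IsCompact K ∧ 0 ∈ interior K ∧ Covered (∏ j, N j) K) ∧
    (∀ (k r : ℕ) (β : Fin k → Fin r) (M : Set (Fin k → ℝ)), Convex ℝ M → Solid M →
      (∀ x ∈ M, ∀ i j, β i = β j → x ∘ Equiv.swap i j ∈ M) → Balanced β M) ∧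
    (∀ (k r : ℕ) (β : Fin k → Fin r) (M : Set (Fin k → ℝ)), IsClosed M →
      Bornology.IsBounded {x | x ∈ M ∧ ∀ i, 0 ≤ x i} →
      (∀ x ∈ M, (∀ i, 0 ≤ x i) → ∀ i t, 0 ≤ t → t < x i →
        Function.update x i t ∈ interior M) → Balanced β M) ∧
    (∀ (n r : ℕ) (β : Fin n → Fin r), Function.Surjective β →
      (∑ b, (1 / 2 : ℝ) ^ (univ.filter (fun j => β j = b)).card ≤ 1) →
      ∀ K : Set (EuclideanSpace ℝ (Fin n)), Convex ℝ K → IsCompact K → (interior K).Nonempty →
      (∀ x ∈ K, ∀ y : EuclideanSpace ℝ (Fin n), (∀ i, |y i| = |x i|) → y ∈ K) →
      (∀ x ∈ K, ∀ i j, β i = β j → ∀ y : EuclideanSpace ℝ (Fin n),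
        (∀ a, y a = x (Equiv.swap i j a)) → y ∈ K) →
      Covered (2 ^ n) K) := by
  refine ⟨?_, ?_, ?_, ?_⟩
  · intro k r β hβ d C hC hCk hC0 N hN hcov hsum M hM hMc hM0 hsol hbal K hK hKb
    exact Pool.Agent.Run7.h414.HC.balanced C hC hCk hC0 β hβ N hN hsum hcov M hMc hM hM0 hsol
      hbal K hK hKb
  · intro k r β M hMc hsol hsym
    exact Pool.Agent.Run7.h414.HC.bal_of_swap hMc hsol hsym
  · intro k r β M hM hb hst
    exact Pool.Agent.Run7.h414.HC.bal_of_strict hM hb hst
  · intro n r β hβ hsum K hKc hKcp hKi hu hsym
    refine Pool.Agent.N148.HD.transfer K _ ?_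
    set K' : Set (Fin n → ℝ) := WithLp.ofLp '' K with hK'
    have he : ∀ x : Fin n → ℝ, x ∈ K' ↔ WithLp.toLp 2 x ∈ K := by
      intro x
      constructor
      · rintro ⟨y, hy, rfl⟩
        exact hy
      · intro h
        exact ⟨_, h, rfl⟩
    have himg : K' = (EuclideanSpace.equiv (Fin n) ℝ) '' K := rfl
    have hc' : Convex ℝ K' := by
      rw [himg]
      exact hKc.linear_image (EuclideanSpace.equiv (Fin n) ℝ).toLinearMap
    have hu' : Pool.Agent.N148.HD.Unc K' := by
      intro x hx y hy
      rw [he] at hx ⊢
      exact hu _ hx _ hy
    have h := Pool.Agent.Run7.h414.HC.unc_blocks β hβ hsum K' hc'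
      (hKcp.image (EuclideanSpace.equiv (Fin n) ℝ).continuous)
      (by
        obtain ⟨x, hx⟩ := hKi
        have := (EuclideanSpace.equiv (Fin n) ℝ).toHomeomorph.image_interior K
        refine ⟨WithLp.ofLp x, ?_⟩
        rw [himg]
        have h5 : (EuclideanSpace.equiv (Fin n) ℝ) x ∈
          (EuclideanSpace.equiv (Fin n) ℝ).toHomeomorph '' interior K := ⟨x, hx, rfl⟩
        rw [this] at h5
        exact h5) hu'
      (fun x hx i j hij => by
        rw [he] at hx ⊢
        exact hsym _ hx i j hij _ fun a => rfl)
    rwa [Fintype.card_fin] at h

end Pool.Agent.Results.MP_eba1ef_gt.BlockSymmetricSums
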